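import Pool.Agent.Helper93.WC.St

set_option autoImplicit false

open Polynomial Helper62.Weber Pool.Agent.Helper93.WC

namespace Pool.Agent.Helper78.WC

theorem geomz (F : Type) [Field F] (z : F) (r R : ℕ) (hz : IsPrimitiveRoot z (2 ^ r * R))
    (t : ℕ) :
    ∑ i ∈ Finset.range R, z ^ ((1 + 2 ^ r * i) * t) = if R ∣ t then (R : F) * z ^ t else 0 := by
  have e : ∀ i, z ^ ((1 + 2 ^ r * i) * t) = z ^ t * (z ^ (2 ^ r * t)) ^ i := by
    intro i
    rw [← pow_mul, ← pow_add]
    congr 1
    ring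
  rw [Finset.sum_congr rfl (fun i _ => e i), ← Finset.mul_sum]
  have h1 : z ^ (2 ^ r * t) = 1 ↔ R ∣ t := by
    rw [hz.pow_eq_one_iff_dvd]
    exact Nat.mul_dvd_mul_iff_left (pow_pos (by norm_num) r)
  split_ifs with h
  · rw [h1.2 h]
    simp [mul_comm]
  · have h2 : z ^ (2 ^ r * t) ≠ 1 := fun h' => h (h1.1 h')
    have h3 : (z ^ (2 ^ r * t)) ^ R = 1 := by
      have : (z ^ (2 ^ r * t)) ^ R = (z ^ (2 ^ r * R)) ^ t := by
        rw [← pow_mul, ← pow_mul]
        congr 1
        ring
      rw [this, hz.pow_eq_one, one_pow]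
    have h4 := mul_geom_sum (z ^ (2 ^ r * t)) R
    rw [h3, sub_self] at h4
    rcases mul_eq_zero.1 h4 with h5 | h5
    · exact absurd (sub_eq_zero.1 h5) h2
    · rw [h5, mul_zero]

theorem cEXT : EXT := by
  intro F _ l r d n _ hl hodd hr hn z hz K a w hw hyp m0 v hm0 hm0' hv
  have hNR : 2 ^ (n + 2) = 2 ^ r * 2 ^ (r + d) := by rw [hn, pow_add]
  rw [hNR] at hz
  obtain ⟨R, hR⟩ : ∃ R : ℕ, R = 2 ^ (r + d) := ⟨_, rfl⟩
  obtain ⟨D, hD⟩ : ∃ D : ℕ, D = 2 ^ d := ⟨_, rfl⟩
  obtain ⟨Q, hQ⟩ : ∃ Q : ℕ, Q = 2 ^ r := ⟨_, rfl⟩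
  have hRQD : R = Q * D := by rw [hR, hQ, hD, pow_add]
  have hQ0 : 0 < Q := by rw [hQ]; positivity
  have hD0 : 0 < D := by rw [hD]; positivity
  have hR0 : 0 < R := by rw [hR]; positivity
  obtain ⟨ρ, hρ⟩ : ∃ ρ : ℕ, ρ = m0 + Q * v := ⟨_, rfl⟩
  rw [← hR] at hz
  have hρR : ρ < R := by
    rw [hρ, hRQD]
    have h1 : v + 1 ≤ D := by rw [hD]; omega
    have h2 : m0 < Q := by rw [hQ]; exact hm0'
    calc m0 + Q * v < Q + Q * v := by omega
      _ = Q * (v + 1) := by ring
      _ ≤ Q * D := Nat.mul_le_mul_left _ h1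
  have hRN : R ≤ Q * R := Nat.le_mul_of_pos_left _ hQ0
  have hG := geomz F z r R hz
  have h2 : (2 : F) ≠ 0 := by
    intro h
    have h3 : ((2 : ℕ) : F) = 0 := by exact_mod_cast h
    rw [CharP.cast_eq_zero_iff F l 2] at h3
    have h4 := (Nat.prime_dvd_prime_iff_eq hl Nat.prime_two).1 h3
    rw [h4] at hodd
    exact absurd hodd (by decide)
  have hRF : (R : F) ≠ 0 := by
    rw [hR]
    push_cast
    exact pow_ne_zero _ h2
  -- the twisted sum
  have H : ∑ k, (a k : F) * ∑ m ∈ (Finset.range (l * 2 ^ r)).filter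
      (fun m => Odd m ∧ ¬ l ∣ m), (w k ^ m / (m : F)) *
        (∑ i ∈ Finset.range R, z ^ ((1 + 2 ^ r * i) * (Q * R - ρ + m))) = 0 := by
    calc _ = ∑ i ∈ Finset.range R, z ^ ((1 + 2 ^ r * i) * (Q * R - ρ)) *
          (∑ k, (a k : F) * ∑ m ∈ (Finset.range (l * 2 ^ r)).filter
            (fun m => Odd m ∧ ¬ l ∣ m), (z ^ (1 + 2 ^ r * i) * w k) ^ m / (m : F)) := by
          simp_rw [Finset.mul_sum]
          rw [Finset.sum_comm (s := Finset.range R)]
          refine Finset.sum_congr rfl (fun k _ => ?_)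
          rw [Finset.sum_comm (s := Finset.range R)]
          refine Finset.sum_congr rfl (fun m _ => ?_)
          refine Finset.sum_congr rfl (fun i _ => ?_)
          rw [mul_add (1 + 2 ^ r * i), pow_add, mul_pow, ← pow_mul z (1 + 2 ^ r * i) m]
          ring
      _ = 0 := by
          refine Finset.sum_eq_zero (fun i _ => ?_)
          rw [hyp i, mul_zero]
  have hfilt : ∀ m : ℕ, R ∣ Q * R - ρ + m ↔ m % R = ρ := by
    intro m
    constructor
    · intro h
      have h1 : (Q * R - ρ + m) + ρ = m + Q * R := by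
        have h5 : ρ ≤ Q * R := by omega
        generalize Q * R = N at *
        omega
      have h3 : ((Q * R - ρ + m) + ρ) % R = ρ := by
        rw [Nat.add_mod, Nat.mod_eq_zero_of_dvd h, zero_add, Nat.mod_mod,
          Nat.mod_eq_of_lt hρR]
      rw [h1, Nat.add_mul_mod_self_right] at h3
      exact h3
    · intro h
      have h3 : m = R * (m / R) + ρ := by
        rw [← h]; exact (Nat.div_add_mod m R).symm
      have h4 : Q * R - ρ + m = R * (Q + m / R) := by
        have h5 : ρ ≤ Q * R := by omega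
        rw [mul_add, mul_comm R Q]
        generalize R * (m / R) = M at *
        generalize Q * R = N at *
        omega
      rw [h4]
      exact dvd_mul_right _ _
  have em : ∀ j, m0 + Q * (v + j * D) = ρ + R * j := by
    intro j
    rw [hρ, hRQD]
    ring
  have hinner : ∀ k, ∑ m ∈ (Finset.range (l * 2 ^ r)).filter
      (fun m => Odd m ∧ ¬ l ∣ m), (w k ^ m / (m : F)) *
        (∑ i ∈ Finset.range R, z ^ ((1 + 2 ^ r * i) * (Q * R - ρ + m))) =
      (R : F) * (w k ^ m0 * ∑ j ∈ (Finset.range l).filter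
      (fun j => v + j * 2 ^ d < l ∧ ¬ l ∣ m0 + 2 ^ r * (v + j * 2 ^ d)),
        (z ^ 2 ^ (r + d)) ^ j / ((m0 + 2 ^ r * (v + j * 2 ^ d) : ℕ) : F)) := by
    intro k
    rw [← hR, ← hQ, ← hD]
    simp_rw [← hQ] at hG
    have e1 : ∀ m : ℕ, (w k ^ m / (m : F)) *
        (∑ i ∈ Finset.range R, z ^ ((1 + Q * i) * (Q * R - ρ + m))) =
        if m % R = ρ then (w k ^ m / (m : F)) * ((R : F) * z ^ (Q * R - ρ + m)) else 0 := by
      intro m
      rw [hG]
      by_cases h : m % R = ρ
      · rw [if_pos h, if_pos ((hfilt m).2 h)]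
      · rw [if_neg h, if_neg (fun h' => h ((hfilt m).1 h')), mul_zero]
    rw [Finset.sum_congr rfl (fun m _ => e1 m), ← Finset.sum_filter, Finset.mul_sum,
      Finset.mul_sum]
    symm
    have hlt : ∀ x, m0 + Q * x < l * Q ↔ x < l := by
      intro x
      constructor
      · intro h
        by_contra h'
        push Not at h'
        have : Q * l ≤ Q * x := Nat.mul_le_mul_left _ h'
        rw [mul_comm Q l] at this
        omega
      · intro h
        have h5 : m0 < Q := by rw [hQ]; exact hm0'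
        calc m0 + Q * x < Q + Q * x := by omega
          _ = Q * (x + 1) := by ring
          _ ≤ Q * l := Nat.mul_le_mul_left _ h
          _ = l * Q := mul_comm _ _
    have hQe : Even Q := by
      rw [hQ]
      exact (Nat.even_pow.2 ⟨even_two, by omega⟩)
    refine Finset.sum_nbij (fun j => m0 + Q * (v + j * D)) ?_ ?_ ?_ ?_
    · intro j hj
      rw [Finset.mem_filter] at hj
      obtain ⟨_, hj2, hj3⟩ := hj
      rw [Finset.mem_filter, Finset.mem_filter, Finset.mem_range]
      refine ⟨⟨(hlt _).2 hj2, hm0.add_even (hQe.mul_right _), hj3⟩, ?_⟩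
      rw [em, Nat.add_mul_mod_self_left, Nat.mod_eq_of_lt hρR]
    · intro j _ j' _ h
      simp only [em] at h
      have h5 : R * j = R * j' := by omega
      exact Nat.eq_of_mul_eq_mul_left hR0 h5
    · intro m hm
      rw [Finset.mem_coe, Finset.mem_filter, Finset.mem_filter, Finset.mem_range] at hm
      obtain ⟨⟨hm1, _, hm3⟩, hm4⟩ := hm
      have hme : m0 + Q * (v + m / R * D) = m := by
        rw [em]
        have := Nat.div_add_mod m R
        omega
      have hml : v + m / R * D < l := by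
        rw [← hlt, hme]
        exact hm1
      refine ⟨m / R, ?_, hme⟩
      rw [Finset.mem_coe, Finset.mem_filter, Finset.mem_range]
      refine ⟨?_, hml, ?_⟩
      · calc m / R ≤ m / R * D := Nat.le_mul_of_pos_right _ hD0
          _ ≤ v + m / R * D := Nat.le_add_left _ _
          _ < l := hml
      · rw [hme]
        exact hm3
    · intro j _
      have h5 : w k ^ (m0 + Q * (v + j * D)) = w k ^ m0 := by
        rw [pow_add, pow_mul, hQ, hw k, one_pow, mul_one]
      have h6 : z ^ (Q * R - ρ + (m0 + Q * (v + j * D))) = (z ^ R) ^ j := by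
        have h7 : Q * R - ρ + (m0 + Q * (v + j * D)) = Q * R + R * j := by
          rw [em]
          have h5 : ρ ≤ Q * R := by omega
          generalize Q * R = N at *
          generalize R * j = M at *
          omega
        rw [h7, pow_add, pow_mul z R j]
        have h8 : z ^ (Q * R) = 1 := by
          rw [hQ]
          exact hz.pow_eq_one
        rw [h8, one_mul]
      rw [h5, h6]
      ring
  rw [Finset.sum_congr rfl (fun k _ => by rw [hinner k])] at H
  have H2 : (R : F) * ((∑ k, (a k : F) * w k ^ m0) * ∑ j ∈ (Finset.range l).filter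
      (fun j => v + j * 2 ^ d < l ∧ ¬ l ∣ m0 + 2 ^ r * (v + j * 2 ^ d)),
        (z ^ 2 ^ (r + d)) ^ j / ((m0 + 2 ^ r * (v + j * 2 ^ d) : ℕ) : F)) = 0 := by
    rw [Finset.sum_mul, Finset.mul_sum, ← H]
    refine Finset.sum_congr rfl (fun k _ => ?_)
    ring
  exact (mul_eq_zero.1 H2).resolve_left hRF

end Pool.Agent.Helper78.WC
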