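import Pool.Agent.Helper93.WC.St

set_option autoImplicit false

open Polynomial Helper62.Weber Pool.Agent.Helper93.WC

namespace Pool.Agent.Helper78.WC

theorem cyc_two (n : ℕ) : (X ^ 2 ^ (n + 1) + 1 : ℤ[X]) = cyclotomic (2 ^ (n + 2)) ℤ := by
  have h := cyclotomic_prime_pow_eq_geom_sum (R := ℤ) (n := n + 1) Nat.prime_two
  rw [show n + 1 + 1 = n + 2 from rfl] at h
  rw [h, Finset.sum_range_succ, Finset.sum_range_one, pow_zero, pow_one, add_comm]

theorem cPOL : POL := by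
  intro n l r hn hl hr hrn a m hm
  have hVint : IsIntegral ℤ (iB n (vl m : B n)) := (int_iff _).2 (vl_mem m).1.1
  obtain ⟨P, hP⟩ := int_poly hVint
  refine ⟨P, ?_⟩
  have hmin : cyclotomic (2 ^ (n + 2)) ℤ = minpoly ℤ (z n) :=
    cyclotomic_eq_minpoly (z_prim n) (by positivity)
  rw [cyc_two, hmin]
  apply minpoly.isIntegrallyClosed_dvd (z_int n)
  have h1 : ph n r (fun k => (a k : ℤ)) = vl m ^ l := by
    rw [← vl_Phi n r hn, hm, vl_zsmul, zpow_natCast]
  have h2 : iB n ((ph n r (fun k => (a k : ℤ)) : (B n)ˣ) : B n) = (iB n (vl m : B n)) ^ l := by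
    rw [h1, Units.val_pow_eq_pow_val, map_pow]
  have h3 : iB n ((ph n r (fun k => (a k : ℤ)) : (B n)ˣ) : B n) =
      ∏ k : Fin (2 ^ (r - 1)), (((z n ^ ex n r k) ^ 2 + z n ^ ex n r k + 1) /
        ((z n ^ ex n r k) ^ 2 - z n ^ ex n r k + 1)) ^ a k := by
    rw [ph, Units.coe_prod, map_prod]
    refine Finset.prod_congr rfl fun k _ => ?_
    rw [zpow_natCast, Units.val_pow_eq_pow_val, map_pow, iB_eps]
    rfl
  have hden : ∀ k : Fin (2 ^ (r - 1)), (z n ^ ex n r k) ^ 2 - z n ^ ex n r k + 1 ≠ 0 :=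
    fun k => den_ne n _
  rw [map_sub, map_mul, map_pow, ← hP, ← h2, h3, map_prod, map_prod, sub_eq_zero,
    ← Finset.prod_mul_distrib]
  refine Finset.prod_congr rfl fun k _ => ?_
  rw [map_pow, map_pow, ← mul_pow]
  congr 1
  have e1 : aeval (z n) (X ^ (2 * ex n r k) - X ^ ex n r k + 1 : ℤ[X]) =
      (z n ^ ex n r k) ^ 2 - z n ^ ex n r k + 1 := by
    simp only [map_add, map_sub, map_pow, aeval_X, map_one]
    rw [mul_comm 2, pow_mul]
  have e2 : aeval (z n) (X ^ (2 * ex n r k) + X ^ ex n r k + 1 : ℤ[X]) =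
      (z n ^ ex n r k) ^ 2 + z n ^ ex n r k + 1 := by
    simp only [map_add, map_pow, aeval_X, map_one]
    rw [mul_comm 2, pow_mul]
  rw [e1, e2, div_mul_cancel₀ _ (hden k)]

end Pool.Agent.Helper78.WC
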